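import Mathlib
import Pool.Agent.V11111.SD.Defs
import Pool.Agent.V11111.SD.Final

/-!
Every continuous action of an infinite sofic group on a finite-dimensional compact metrizable space
has sofic mean dimension at most `0`, for every sofic approximation sequence.
-/

set_option autoImplicit false

namespace Pool.Agent.Results.MP_8bee83_an.FiniteDimensional

open Pool.Agent.V11111.SD

/-- Q1. -/
theorem result (Γ : Type) [Group Γ] [Countable Γ] [Infinite Γ] (S : Sofic Γ)
    (X : Type) [MetricSpace X] [CompactSpace X] [MulAction Γ X] [ContinuousConstSMul Γ X]
    (hX : covDim X < ⊤) : mdim X S ≤ 0 :=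
  mdim_le S X hX

end Pool.Agent.Results.MP_8bee83_an.FiniteDimensional
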